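import Pool.Agent.Y471.CK.Rec

/-!
# Binary digit sums: the densities of `{n : s (n + t) - s n = d}` exist and sum to one
-/

set_option autoImplicit false

namespace Pool.Agent.Y471.CK

open Finset Filter Topology

/-- `s (r + 2 ^ M * q) = s r + s q` for `r < 2 ^ M` -/
lemma s_split : ∀ (M r q : ℕ), r < 2 ^ M → s (r + 2 ^ M * q) = s r + s q := by
  intro M
  induction M with
  | zero =>
    intro r q h
    have : r = 0 := by simpa using h
    subst this
    simp [s_zero]
  | succ M ih =>
    intro r q h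
    rw [pow_succ] at h
    rcases Nat.even_or_odd' r with ⟨c, hc | hc⟩
    · have e : r + 2 ^ (M+1) * q = 2 * (c + 2 ^ M * q) := by rw [hc, pow_succ]; ring
      rw [e, s_even, ih c q (by omega), hc, s_even]
    · have e : r + 2 ^ (M+1) * q = 2 * (c + 2 ^ M * q) + 1 := by rw [hc, pow_succ]; ring
      rw [e, s_odd, ih c q (by omega), hc, s_odd]; ring

lemma s_succ_le (n : ℕ) : s (n + 1) ≤ s n + 1 := by
  induction n using Nat.strong_induction_on with
  | _ n ih =>
    rcases Nat.even_or_odd' n with ⟨c, hc | hc⟩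
    · rw [hc, s_odd, s_even]
    · rw [hc, show 2 * c + 1 + 1 = 2 * (c + 1) by ring, s_even, s_odd]
      have := ih c (by omega)
      omega

lemma s_add_le : ∀ n a b : ℕ, a + b = n → s (a + b) ≤ s a + s b := by
  intro n
  induction n using Nat.strong_induction_on with
  | _ n ih =>
    intro a b h
    rcases Nat.eq_zero_or_pos n with h0 | hpos
    · have ha : a = 0 := by omega
      have hb : b = 0 := by omega
      subst ha; subst hb
      simp [s_zero]
    · rcases Nat.even_or_odd' a with ⟨c, hc | hc⟩ <;> rcases Nat.even_or_odd' b with ⟨e, he | he⟩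
      · rw [hc, he, show 2 * c + 2 * e = 2 * (c + e) by ring, s_even, s_even, s_even]
        exact ih (c + e) (by omega) c e rfl
      · rw [hc, he, show 2 * c + (2 * e + 1) = 2 * (c + e) + 1 by ring, s_odd, s_even, s_odd]
        have := ih (c + e) (by omega) c e rfl
        omega
      · rw [hc, he, show 2 * c + 1 + 2 * e = 2 * (c + e) + 1 by ring, s_odd, s_even, s_odd]
        have := ih (c + e) (by omega) c e rfl
        omega
      · rw [hc, he, show 2 * c + 1 + (2 * e + 1) = 2 * (c + e + 1) by ring, s_odd, s_even, s_odd]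
        have := ih (c + e) (by omega) c e rfl
        have := s_succ_le (c + e)
        omega

lemma s_le (M : ℕ) : ∀ r, r < 2 ^ M → s r ≤ M := by
  induction M with
  | zero =>
    intro r h
    have : r = 0 := by simpa using h
    subst this
    simp [s_zero]
  | succ M ih =>
    intro r h
    rw [pow_succ] at h
    rcases Nat.even_or_odd' r with ⟨c, hc | hc⟩
    · rw [hc, s_even]
      have := ih c (by omega)
      omega
    · rw [hc, s_odd]
      have := ih c (by omega)
      omega

/-- `s (n + t) - s n` -/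
def df (t n : ℕ) : ℤ := (s (n + t) : ℤ) - s n

lemma df_le (t n : ℕ) : df t n ≤ s t := by
  unfold df
  have := s_add_le (n + t) n t rfl
  omega

lemma df_ge (t M r : ℕ) (h : r < 2 ^ M) : -(M : ℤ) ≤ df t r := by
  unfold df
  have := s_le M r h
  omega

lemma df_split (t M r q : ℕ) (h : r + t < 2 ^ M) : df t (r + 2 ^ M * q) = df t r := by
  unfold df
  rw [show r + 2 ^ M * q + t = (r + t) + 2 ^ M * q by ring, s_split M _ _ h,
    s_split M r q (by omega)]
  push_cast
  ring

/-- sum of `f (s (n + t) - s n)` over `n < N` -/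
noncomputable def S (f : ℤ → ℝ) (t N : ℕ) : ℝ := ∑ n ∈ range N, f (df t n)

section

variable {f : ℤ → ℝ} (h0 : ∀ d, 0 ≤ f d) (h1 : ∀ d, f d ≤ 1)

include h0 h1

lemma block (t M q : ℕ) :
    |∑ r ∈ range (2^M), f (df t (2^M * q + r)) - S f t (2^M)| ≤ t := by
  unfold S
  rw [← sum_sub_distrib]
  refine (abs_sum_le_sum_abs _ _).trans ?_
  have key : ∀ r ∈ range (2^M), |f (df t (2^M * q + r)) - f (df t r)| ≤
      if r ∈ Ico (2^M - t) (2^M) then (1:ℝ) else 0 := by
    intro r hr
    rw [mem_range] at hr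
    split_ifs with h
    · rw [abs_le]
      constructor <;> linarith [h0 (df t (2^M*q+r)), h1 (df t (2^M*q+r)), h0 (df t r), h1 (df t r)]
    · rw [mem_Ico] at h
      have : r + t < 2^M := by omega
      rw [add_comm (2^M*q) r, df_split t M r q this]
      simp
  refine (sum_le_sum key).trans ?_
  rw [← sum_filter, sum_const, nsmul_eq_mul, mul_one]
  have hc : (filter (fun r => r ∈ Ico (2^M - t) (2^M)) (range (2^M))).card ≤ t := by
    refine (card_le_card (t := Ico (2^M - t) (2^M)) fun x hx => (mem_filter.1 hx).2).trans ?_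
    rw [Nat.card_Ico]
    omega
  exact_mod_cast hc

lemma blocks (t M Q : ℕ) : |S f t (2^M * Q) - Q * S f t (2^M)| ≤ t * Q := by
  induction Q with
  | zero => simp [S]
  | succ Q ih =>
    have e : S f t (2^M * (Q+1)) =
        S f t (2^M * Q) + ∑ r ∈ range (2^M), f (df t (2^M * Q + r)) := by
      unfold S
      rw [mul_add, mul_one, sum_range_add]
    have b := block h0 h1 t M Q
    rw [e]
    push_cast
    rw [abs_le] at ih b ⊢
    constructor
    · linarith [ih.1, b.1]
    · linarith [ih.2, b.2]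

omit h1 in
lemma S_nonneg (t N : ℕ) : 0 ≤ S f t N := sum_nonneg fun _ _ => h0 _

omit h0 in
lemma S_le (t N : ℕ) : S f t N ≤ N := by
  unfold S
  refine (sum_le_sum fun n _ => h1 (df t n)).trans ?_
  simp

lemma near (t M N : ℕ) (hN0 : 0 < N) :
    |S f t N / N - S f t (2^M) / 2^M| ≤ t / 2^M + 2 * 2^M / N := by
  set Q := N / 2^M with hQ
  set r0 := N % 2^M with hr0
  have hN : 2^M * Q + r0 = N := Nat.div_add_mod N (2^M)
  have hr : r0 < 2^M := Nat.mod_lt _ (by positivity)
  have e1 : S f t N = S f t (2^M * Q) + ∑ r ∈ range r0, f (df t (2^M*Q + r)) := by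
    rw [← hN]
    unfold S
    rw [sum_range_add]
  have e2 : 0 ≤ ∑ r ∈ range r0, f (df t (2^M*Q + r)) := sum_nonneg fun _ _ => h0 _
  have e3 : ∑ r ∈ range r0, f (df t (2^M*Q + r)) ≤ r0 := by
    refine (sum_le_sum fun n _ => h1 (df t (2^M*Q+n))).trans ?_
    simp
  have b := blocks h0 h1 t M Q
  have hN' : (2:ℝ)^M * Q + r0 = N := by exact_mod_cast hN
  have hr' : (r0:ℝ) < 2^M := by exact_mod_cast hr
  have hP : (0:ℝ) < 2^M := by positivity
  have hNp : (0:ℝ) < N := by exact_mod_cast hN0
  have s0 := S_nonneg h0 t (2^M)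
  have s1 : S f t (2^M) ≤ 2^M := by
    have := S_le h1 t (2^M)
    push_cast at this
    exact this
  set D := S f t (2^M) / 2^M with hD
  have hD0 : 0 ≤ D := by positivity
  have hD1 : D ≤ 1 := by rw [hD, div_le_one hP]; exact s1
  have hDe : S f t (2^M) = D * 2^M := by rw [hD]; field_simp
  rw [hDe] at b
  have hr0' : (0:ℝ) ≤ r0 := Nat.cast_nonneg _
  have main : |S f t N - N * D| ≤ t * Q + 2 * 2^M := by
    rw [e1, ← hN']
    rw [abs_le] at b ⊢
    have m1 : (r0:ℝ) * D ≤ r0 := by nlinarith
    have m2 : 0 ≤ (r0:ℝ) * D := by positivity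
    constructor
    · nlinarith [b.1]
    · nlinarith [b.2]
  have hQle : (t:ℝ) * Q ≤ t * (N / 2^M) := by
    refine mul_le_mul_of_nonneg_left ?_ (Nat.cast_nonneg _)
    rw [le_div_iff₀ hP]
    nlinarith
  have : S f t N / N - D = (S f t N - N * D) / N := by field_simp
  rw [this, abs_div, abs_of_pos hNp, div_le_iff₀ hNp]
  refine main.trans ?_
  have e : ((t:ℝ) / 2^M + 2 * 2^M / N) * N = t * (N / 2^M) + 2 * 2^M := by field_simp
  rw [e]
  linarith

theorem exists_dens (t : ℕ) : ∃ c, Tendsto (fun N : ℕ => S f t N / N) atTop (𝓝 c) := by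
  apply cauchySeq_tendsto_of_complete
  rw [Metric.cauchySeq_iff']
  intro ε hε
  obtain ⟨M, hM⟩ := exists_pow_lt_of_lt_one (show 0 < ε / (4 * (t + 1)) by positivity)
    (show (1/2:ℝ) < 1 by norm_num)
  have hM' : (t:ℝ) / 2^M < ε / 4 := by
    rw [one_div, inv_pow, inv_lt_comm₀ (by positivity) (by positivity), inv_div,
      div_lt_iff₀ hε] at hM
    rw [div_lt_iff₀ (by positivity)]
    nlinarith
  obtain ⟨N0, hN0⟩ := exists_nat_gt (8 * 2^M / ε : ℝ)
  have hp : (0:ℝ) < 8 * 2^M / ε := by positivity
  have hN0p : (0:ℝ) < N0 := hp.trans hN0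
  have hN0p' : 0 < N0 := by exact_mod_cast hN0p
  have key : ∀ n ≥ N0, |S f t n / n - S f t (2^M) / 2^M| < ε / 2 := by
    intro n hn
    have hn' : (N0:ℝ) ≤ n := by exact_mod_cast hn
    have hnp : (0:ℝ) < n := hN0p.trans_le hn'
    refine (near h0 h1 t M n (by omega)).trans_lt ?_
    have : 2 * 2^M / (n:ℝ) < ε / 4 := by
      rw [div_lt_iff₀ hε] at hN0
      rw [div_lt_iff₀ hnp]
      nlinarith
    linarith
  refine ⟨N0, fun n hn => ?_⟩
  have k1 := key n hn
  have k2 := key N0 le_rfl
  rw [Real.dist_eq]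
  rw [abs_lt] at k1 k2 ⊢
  constructor <;> linarith [k1.1, k1.2, k2.1, k2.2]

lemma dens_near (t M : ℕ) (c : ℝ) (hc : Tendsto (fun N : ℕ => S f t N / N) atTop (𝓝 c)) :
    |c - S f t (2^M) / 2^M| ≤ t / 2^M := by
  have l1 : Tendsto (fun N : ℕ => |S f t N / N - S f t (2^M) / 2^M|) atTop
      (𝓝 |c - S f t (2^M) / 2^M|) := (hc.sub_const _).abs
  have l2 : Tendsto (fun N : ℕ => (t:ℝ) / 2^M + 2 * 2^M / N) atTop (𝓝 ((t:ℝ) / 2^M + 0)) :=
    tendsto_const_nhds.add (tendsto_const_div_atTop_nhds_zero_nat _)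
  rw [add_zero] at l2
  refine le_of_tendsto_of_tendsto l1 l2 ?_
  filter_upwards [eventually_gt_atTop 0] with N hN
  exact near h0 h1 t M N hN

end

/-- indicator of `d` -/
noncomputable def pt (d : ℤ) : ℤ → ℝ := fun x => if x = d then 1 else 0

lemma pt_nonneg (d x : ℤ) : 0 ≤ pt d x := by unfold pt; split_ifs <;> norm_num

lemma pt_le_one (d x : ℤ) : pt d x ≤ 1 := by unfold pt; split_ifs <;> norm_num

/-- indicator of the numbers `< d` -/
noncomputable def lo (d : ℤ) : ℤ → ℝ := fun x => if x < d then 1 else 0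

lemma lo_nonneg (d x : ℤ) : 0 ≤ lo d x := by unfold lo; split_ifs <;> norm_num

lemma lo_le_one (d x : ℤ) : lo d x ≤ 1 := by unfold lo; split_ifs <;> norm_num

/-- indicator of the nonnegative numbers -/
noncomputable def up : ℤ → ℝ := fun x => if 0 ≤ x then 1 else 0

lemma up_nonneg (x : ℤ) : 0 ≤ up x := by unfold up; split_ifs <;> norm_num

lemma up_le_one (x : ℤ) : up x ≤ 1 := by unfold up; split_ifs <;> norm_num

lemma sum_pt (A : Finset ℤ) (x : ℤ) : ∑ d ∈ A, pt d x = if x ∈ A then 1 else 0 := by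
  unfold pt
  rw [Finset.sum_ite_eq]

lemma S_sum {ι : Type*} (A : Finset ι) (g : ι → ℤ → ℝ) (t N : ℕ) :
    ∑ d ∈ A, S (g d) t N = S (fun x => ∑ d ∈ A, g d x) t N := by
  unfold S
  rw [sum_comm]

theorem main (t : ℕ) : ∃ μ : ℤ → ℝ,
    (∀ d, Tendsto (fun N : ℕ => S (pt d) t N / N) atTop (𝓝 (μ d))) ∧ HasSum μ 1 ∧
    ∃ c, Tendsto (fun N : ℕ => S up t N / N) atTop (𝓝 c) ∧ HasSum (fun d : ℕ => μ d) c ∧
      1 / 2 + 1 / 2 * (1 / 4 : ℝ) ^ s t ≤ c := by
  have hex := fun d => exists_dens (pt_nonneg d) (pt_le_one d) t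
  choose μ hμ using hex
  refine ⟨μ, hμ, ?_, ?_⟩
  · have nn : ∀ d, 0 ≤ μ d := fun d =>
      ge_of_tendsto' (hμ d) fun N => by
        have := S_nonneg (pt_nonneg d) t N
        positivity
    refine hasSum_of_isLUB_of_nonneg 1 nn ⟨?_, ?_⟩
    · rintro _ ⟨A, rfl⟩
      have l : Tendsto (fun N : ℕ => ∑ d ∈ A, S (pt d) t N / N) atTop (𝓝 (∑ d ∈ A, μ d)) :=
        tendsto_finsetSum _ fun d _ => hμ d
      refine le_of_tendsto l ?_
      filter_upwards [eventually_gt_atTop 0] with N hN
      have hNp : (0:ℝ) < N := by exact_mod_cast hN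
      rw [← sum_div, S_sum, div_le_one hNp]
      refine S_le (f := fun x => ∑ d ∈ A, pt d x) ?_ t N
      · intro x; rw [sum_pt]; split_ifs <;> norm_num
    · intro b hb
      have key : ∀ K : ℕ, 1 - (t:ℝ) / 2^K ≤ b := by
        intro K
        obtain ⟨c, hc⟩ := exists_dens (lo_nonneg (-(K:ℤ))) (lo_le_one (-(K:ℤ))) t
        have hn := dens_near (lo_nonneg (-(K:ℤ))) (lo_le_one (-(K:ℤ))) t K c hc
        have hz : S (lo (-(K:ℤ))) t (2^K) = 0 := by
          unfold S
          refine sum_eq_zero fun n hn => ?_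
          have := df_ge t K n (mem_range.1 hn)
          unfold lo
          rw [if_neg (by omega)]
        rw [hz, zero_div, sub_zero] at hn
        have hc1 : c ≤ t / 2^K := (le_abs_self c).trans hn
        set A : Finset ℤ := Ico (-(K:ℤ)) (s t + 1) with hA
        have hb' : ∑ d ∈ A, μ d ≤ b := hb ⟨A, rfl⟩
        have l : Tendsto (fun N : ℕ => ∑ d ∈ A, S (pt d) t N / N + S (lo (-(K:ℤ))) t N / N) atTop
            (𝓝 (∑ d ∈ A, μ d + c)) :=
          (tendsto_finsetSum _ fun d _ => hμ d).add hc
        have l2 : ∀ᶠ N : ℕ in atTop,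
            ∑ d ∈ A, S (pt d) t N / N + S (lo (-(K:ℤ))) t N / N = 1 := by
          filter_upwards [eventually_gt_atTop 0] with N hN
          have hNp : (N:ℝ) ≠ 0 := by positivity
          rw [← sum_div, S_sum, ← add_div, div_eq_one_iff_eq hNp]
          unfold S
          rw [← sum_add_distrib]
          have : ∀ n ∈ range N, (∑ d ∈ A, pt d (df t n)) + lo (-(K:ℤ)) (df t n) = 1 := by
            intro n _
            rw [sum_pt]
            unfold lo
            have := df_le t n
            by_cases h : df t n < -(K:ℤ)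
            · rw [if_neg (by rw [hA, mem_Ico]; omega), if_pos h, zero_add]
            · rw [if_pos (by rw [hA, mem_Ico]; omega), if_neg h, add_zero]
          rw [sum_congr rfl this]
          simp
        have l3 := l.congr' l2
        have := tendsto_nhds_unique l3 tendsto_const_nhds
        linarith
      have lim : Tendsto (fun K : ℕ => 1 - (t:ℝ) / 2^K) atTop (𝓝 (1 - 0)) := by
        refine tendsto_const_nhds.sub ?_
        have := (tendsto_pow_atTop_nhds_zero_of_lt_one (r := (1/2:ℝ)) (by norm_num)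
          (by norm_num)).const_mul (t:ℝ)
        rw [mul_zero] at this
        refine this.congr fun K => ?_
        rw [one_div, inv_pow]; rfl
      rw [sub_zero] at lim
      exact le_of_tendsto' lim key
  · obtain ⟨c, hc⟩ := exists_dens up_nonneg up_le_one t
    refine ⟨c, hc, ?_, ?_⟩
    · have hz : ∀ d : ℕ, d ∉ range (s t + 1) → μ (d:ℤ) = 0 := by
        intro d hd
        rw [mem_range] at hd
        refine tendsto_nhds_unique (hμ d) ?_
        have : ∀ N : ℕ, S (pt (d:ℤ)) t N / N = 0 := by
          intro N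
          have : S (pt (d:ℤ)) t N = 0 := by
            unfold S
            refine sum_eq_zero fun n _ => ?_
            have := df_le t n
            unfold pt
            rw [if_neg (by omega)]
          rw [this, zero_div]
        simp only [this]
        exact tendsto_const_nhds
      have hs : HasSum (fun d : ℕ => μ (d:ℤ)) (∑ d ∈ range (s t + 1), μ (d:ℤ)) :=
        hasSum_sum_of_ne_finset_zero hz
      have l : Tendsto (fun N : ℕ => ∑ d ∈ range (s t + 1), S (pt (d:ℤ)) t N / N) atTop
            (𝓝 (∑ d ∈ range (s t + 1), μ (d:ℤ))) := tendsto_finsetSum _ fun d _ => hμ d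
      have l2 : ∀ N : ℕ, ∑ d ∈ range (s t + 1), S (pt (d:ℤ)) t N / N = S up t N / N := by
        intro N
        rw [← sum_div, S_sum (range (s t + 1)) (fun d : ℕ => pt (d:ℤ)) t N]
        congr 1
        unfold S
        refine sum_congr rfl fun n _ => ?_
        have hle := df_le t n
        unfold up pt
        by_cases h : 0 ≤ df t n
        · rw [if_pos h]
          obtain ⟨m, hm⟩ := Int.eq_ofNat_of_zero_le h
          show (∑ d ∈ range (s t + 1), if df t n = (d:ℤ) then (1:ℝ) else 0) = 1
          rw [sum_eq_single m]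
          · rw [if_pos hm]
          · intro b _ hb
            rw [if_neg]
            intro hb'
            apply hb
            omega
          · intro hb
            rw [mem_range] at hb
            omega
        · rw [if_neg h]
          refine sum_eq_zero fun d _ => ?_
          rw [if_neg (by omega)]
      simp only [l2] at l
      have := tendsto_nhds_unique l hc
      rw [this] at hs
      exact hs
    · obtain ⟨M0, hM0⟩ := lower t
      have hsub : Tendsto (fun M : ℕ => S up t (2^M) / ((2^M : ℕ):ℝ)) atTop (𝓝 c) :=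
        hc.comp (tendsto_pow_atTop_atTop_of_one_lt (by norm_num : 1 < 2))
      refine ge_of_tendsto hsub ?_
      filter_upwards [eventually_ge_atTop M0] with M hM
      refine (hM0 M hM).trans (le_of_eq ?_)
      unfold dd S ind up df
      push_cast
      congr 1
      refine sum_congr rfl fun n _ => ?_
      congr 1
      apply propext
      constructor <;> intro h <;> omega

end Pool.Agent.Y471.CK
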