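import Pool.Agent.W93.CU2

/-!
# Explicit strict median inequality for words ending with a zero
-/

set_option autoImplicit false

namespace Pool.Agent.Y471.CK

open W93.CU

/-- explicit strict deletion inequality for a word ending with a zero -/
theorem strict_end_zero' (w : List Bool) :
    N (w ++ [false]) (min (w.count false) (w.count true) + 1)
      (min (w.count false) (w.count true) + 1) + 1 ≤
      2 * N (w ++ [false]) (min (w.count false) (w.count true))
        (min (w.count false) (w.count true) + 1) := by
  set v := w ++ [false] with hv
  have hvf : v.count false = w.count false + 1 := by rw [hv]; simp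
  have hvt : v.count true = w.count true := by rw [hv]; simp
  by_cases h : w.count true ≤ w.count false
  · rw [min_eq_right h]
    have := strict_of_few_ones v (by omega)
    rw [hvt] at this
    exact this
  · rw [min_eq_left (by omega)]
    set k := w.count false with hk
    have E := N_end_zero w k
    rw [← hv, hvf] at E
    have pos := N_pos v k (k+1) (by omega) (by omega)
    have e : (k + (k + 1)) * N v k (k+1) + N v k (k+1) = (k+1) * (2 * N v k (k+1)) := by ring
    have : (k+1) * N v (k+1) (k+1) < (k+1) * (2 * N v k (k+1)) := by omega
    have := lt_of_mul_lt_mul_left this (Nat.zero_le _)
    omega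

/-- **Explicit strict median inequality for words ending with a zero.** -/
theorem strict_odd_end_zero' (w : List Bool) :
    1/2 + 1/2 * (1/4 : ℝ) ^ (min (w.count false) (w.count true) + 1) ≤
      (tl one0 one0 (true :: (w ++ [false]))).1 0 :=
  strict_odd _ _ (strict_end_zero' w)

lemma count_map_not_false (w : List Bool) : (w.map not).count false = w.count true := by
  induction w with
  | nil => rfl
  | cons b w ih =>
    cases b
    · simp only [List.map_cons, Bool.not_false]
      rw [List.count_cons_of_ne (by decide), List.count_cons_of_ne (by decide), ih]
    · simp only [List.map_cons, Bool.not_true, List.count_cons_self, ih]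

lemma count_map_not_true (w : List Bool) : (w.map not).count true = w.count false := by
  induction w with
  | nil => rfl
  | cons b w ih =>
    cases b
    · simp only [List.map_cons, Bool.not_false, List.count_cons_self, ih]
    · simp only [List.map_cons, Bool.not_true]
      rw [List.count_cons_of_ne (by decide), List.count_cons_of_ne (by decide), ih]

theorem strict_odd_end_one' (w : List Bool) :
    (tl one0 one0 (true :: (w ++ [true]))).1 1 ≤
      1/2 - 1/2 * (1/4 : ℝ) ^ (min (w.count false) (w.count true) + 1) := by
  rw [odd_refl]
  have := strict_odd_end_zero' (w.map not)
  have e : (w ++ [true]).map not = w.map not ++ [false] := by simp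
  rw [e]
  rw [count_map_not_false, count_map_not_true, min_comm] at this
  linarith

end Pool.Agent.Y471.CK
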