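import Pool.Agent.W93.CU2

/-!
# Binary digit sums: proportions of `n < 2 ^ M` with `s (n + t) - s n ≥ k`
-/

set_option autoImplicit false

namespace Pool.Agent.Y471.CK

open Finset W93.CU

/-- number of ones in the binary expansion -/
def s (n : ℕ) : ℕ := (Nat.digits 2 n).sum

lemma s_even (n : ℕ) : s (2 * n) = s n := by
  unfold s
  rcases Nat.eq_zero_or_pos n with rfl | h
  · rfl
  · have := Nat.digits_add 2 (by norm_num) 0 n (by norm_num) (Or.inr h.ne')
    rw [zero_add] at this
    rw [this]
    simp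

lemma s_odd (n : ℕ) : s (2 * n + 1) = s n + 1 := by
  unfold s
  have := Nat.digits_add 2 (by norm_num) 1 n (by norm_num) (Or.inl (by norm_num))
  rw [add_comm (2 * n) 1, this]
  simp [add_comm]

lemma s_zero : s 0 = 0 := by simp [s]

lemma s_one : s 1 = 1 := by simp [s]

/-- indicator of `s n + k ≤ s (n + t)` -/
noncomputable def ind (t : ℕ) (k : ℤ) (n : ℕ) : ℝ := if (s n : ℤ) + k ≤ s (n + t) then 1 else 0

lemma ind_nonneg (t : ℕ) (k : ℤ) (n : ℕ) : 0 ≤ ind t k n := by
  unfold ind; split_ifs <;> norm_num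

lemma ind_le_one (t : ℕ) (k : ℤ) (n : ℕ) : ind t k n ≤ 1 := by
  unfold ind; split_ifs <;> norm_num

lemma ind_ee (u : ℕ) (k : ℤ) (m : ℕ) : ind (2 * u) k (2 * m) = ind u k m := by
  unfold ind
  rw [← mul_add, s_even, s_even]

lemma ind_eo (u : ℕ) (k : ℤ) (m : ℕ) : ind (2 * u) k (2 * m + 1) = ind u k m := by
  unfold ind
  rw [show 2 * m + 1 + 2 * u = 2 * (m + u) + 1 by ring, s_odd, s_odd]
  push_cast
  congr 1
  apply propext
  constructor <;> intro h <;> omega

lemma ind_oe (u : ℕ) (k : ℤ) (m : ℕ) : ind (2 * u + 1) k (2 * m) = ind u (k - 1) m := by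
  unfold ind
  rw [show 2 * m + (2 * u + 1) = 2 * (m + u) + 1 by ring, s_odd, s_even]
  push_cast
  congr 1
  apply propext
  constructor <;> intro h <;> omega

lemma ind_oo (u : ℕ) (k : ℤ) (m : ℕ) : ind (2 * u + 1) k (2 * m + 1) = ind (u + 1) (k + 1) m := by
  unfold ind
  rw [show 2 * m + 1 + (2 * u + 1) = 2 * (m + (u + 1)) by ring, s_odd, s_even]
  push_cast
  congr 1
  apply propext
  constructor <;> intro h <;> omega

lemma sum_split (f : ℕ → ℝ) (X : ℕ) :
    ∑ n ∈ range (2 * X), f n = ∑ m ∈ range X, (f (2 * m) + f (2 * m + 1)) := by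
  induction X with
  | zero => simp
  | succ X ih =>
    rw [show 2 * (X + 1) = 2 * X + 1 + 1 by ring, sum_range_succ, sum_range_succ, ih,
      sum_range_succ]
    ring

/-- proportion of the `n < 2 ^ M` with `s (n + t) - s n ≥ k` -/
noncomputable def dd (t M : ℕ) (k : ℤ) : ℝ := (∑ n ∈ range (2 ^ M), ind t k n) / 2 ^ M

lemma dd_even (u M : ℕ) (k : ℤ) : dd (2 * u) (M + 1) k = dd u M k := by
  unfold dd
  rw [pow_succ', sum_split]
  have : ∑ m ∈ range (2 ^ M), (ind (2 * u) k (2 * m) + ind (2 * u) k (2 * m + 1)) =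
      2 * ∑ m ∈ range (2 ^ M), ind u k m := by
    rw [mul_sum]
    refine sum_congr rfl fun m _ => ?_
    rw [ind_ee, ind_eo]; ring
  rw [this, pow_succ']
  field_simp

lemma dd_odd (u M : ℕ) (k : ℤ) :
    dd (2 * u + 1) (M + 1) k = dd u M (k - 1) / 2 + dd (u + 1) M (k + 1) / 2 := by
  unfold dd
  rw [pow_succ', sum_split]
  have : ∑ m ∈ range (2 ^ M), (ind (2 * u + 1) k (2 * m) + ind (2 * u + 1) k (2 * m + 1)) =
      ∑ m ∈ range (2 ^ M), ind u (k - 1) m + ∑ m ∈ range (2 ^ M), ind (u + 1) (k + 1) m := by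
    rw [← sum_add_distrib]
    refine sum_congr rfl fun m _ => ?_
    rw [ind_oe, ind_oo]
  rw [this, pow_succ']
  field_simp

lemma dd_zero (M : ℕ) (k : ℤ) : dd 0 M k = one0 k := by
  unfold dd one0
  have : ∀ n ∈ range (2 ^ M), ind 0 k n = if k ≤ 0 then 1 else 0 := by
    intro n _
    unfold ind
    rw [add_zero]
    congr 1
    apply propext
    constructor <;> intro h <;> omega
  rw [sum_congr rfl this, sum_const, card_range, nsmul_eq_mul]
  push_cast
  field_simp

lemma dd_one_zero (k : ℤ) : one0 k ≤ dd 1 0 k := by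
  unfold dd one0 ind
  simp only [pow_zero, range_one, sum_singleton, zero_add, s_zero, s_one]
  split_ifs with h1 h2 h2
  · norm_num
  · exfalso
    push_cast at h2
    omega
  · norm_num
  · norm_num

/-- value of a word, lowest digit first -/
def val : List Bool → ℕ
  | [] => 0
  | true :: w => 2 * val w + 1
  | false :: w => 2 * val w

lemma dd_word (w : List Bool) (m : ℕ) :
    (∀ k, dd (val w) (w.length + m) k = (tl one0 (dd 1 m) w).1 k) ∧
    ∀ k, dd (val w + 1) (w.length + m) k = (tl one0 (dd 1 m) w).2 k := by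
  induction w with
  | nil =>
    refine ⟨fun k => ?_, fun k => ?_⟩
    · simp only [val, tl]
      exact dd_zero _ k
    · simp only [val, tl, List.length_nil, zero_add]
  | cons b w ih =>
    obtain ⟨ih1, ih2⟩ := ih
    have hl : (b :: w).length + m = (w.length + m) + 1 := by simp; ring
    cases b with
    | true =>
      refine ⟨fun k => ?_, fun k => ?_⟩
      · rw [hl]
        show dd (2 * val w + 1) _ k = (tl one0 (dd 1 m) w).1 (k-1) / 2 + (tl one0 (dd 1 m) w).2 (k+1) / 2
        rw [dd_odd, ih1, ih2]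
      · rw [hl]
        show dd (2 * val w + 1 + 1) _ k = (tl one0 (dd 1 m) w).2 k
        rw [show 2 * val w + 1 + 1 = 2 * (val w + 1) by ring, dd_even, ih2]
    | false =>
      refine ⟨fun k => ?_, fun k => ?_⟩
      · rw [hl]
        show dd (2 * val w) _ k = (tl one0 (dd 1 m) w).1 k
        rw [dd_even, ih1]
      · rw [hl]
        show dd (2 * val w + 1) _ k = (tl one0 (dd 1 m) w).1 (k-1) / 2 + (tl one0 (dd 1 m) w).2 (k+1) / 2
        rw [dd_odd, ih1, ih2]

lemma tl_mono (α β β' : ℤ → ℝ) (h : ∀ k, β k ≤ β' k) (w : List Bool) :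
    (∀ k, (tl α β w).1 k ≤ (tl α β' w).1 k) ∧ ∀ k, (tl α β w).2 k ≤ (tl α β' w).2 k := by
  induction w with
  | nil => exact ⟨fun k => le_rfl, h⟩
  | cons b w ih =>
    obtain ⟨ih1, ih2⟩ := ih
    cases b with
    | true =>
      refine ⟨fun k => ?_, ih2⟩
      show (tl α β w).1 (k-1) / 2 + (tl α β w).2 (k+1) / 2 ≤
        (tl α β' w).1 (k-1) / 2 + (tl α β' w).2 (k+1) / 2
      linarith [ih1 (k-1), ih2 (k+1)]
    | false =>
      refine ⟨ih1, fun k => ?_⟩
      show (tl α β w).1 (k-1) / 2 + (tl α β w).2 (k+1) / 2 ≤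
        (tl α β' w).1 (k-1) / 2 + (tl α β' w).2 (k+1) / 2
      linarith [ih1 (k-1), ih2 (k+1)]

lemma val_append (w : List Bool) (m : ℕ) : val (w ++ List.replicate m false) = val w := by
  induction w with
  | nil =>
    simp only [List.nil_append]
    induction m with
    | zero => rfl
    | succ m ih => rw [List.replicate_succ]; simp only [val, ih]
  | cons b w ih =>
    cases b <;> simp only [List.cons_append, val, ih]

lemma s_val (w : List Bool) : s (val w) = w.count true := by
  induction w with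
  | nil => simp [val, s_zero]
  | cons b w ih =>
    cases b with
    | true => simp only [val, s_odd, ih, List.count_cons_self]
    | false => simp only [val, s_even, ih]; simp

lemma exists_word : ∀ t : ℕ, ∃ w : List Bool, val w = t := by
  intro t
  induction t using Nat.strong_induction_on with
  | _ t ih =>
    rcases Nat.eq_zero_or_pos t with rfl | h
    · exact ⟨[], rfl⟩
    · obtain ⟨w, hw⟩ := ih (t / 2) (by omega)
      rcases Nat.even_or_odd' t with ⟨c, hc | hc⟩
      · refine ⟨false :: w, ?_⟩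
        simp only [val, hw]; omega
      · refine ⟨true :: w, ?_⟩
        simp only [val, hw]; omega

/-- odd numbers -/
lemma lower_odd (w : List Bool) : ∃ M0 : ℕ, ∀ M, M0 ≤ M →
    1 / 2 + 1 / 2 * (1 / 4 : ℝ) ^ s (2 * val w + 1) ≤ dd (2 * val w + 1) M 0 := by
  refine ⟨w.length + 1 + (w.count true + 1), fun M hM => ?_⟩
  obtain ⟨m, rfl⟩ := Nat.exists_eq_add_of_le (show w.length + 1 ≤ M by omega)
  have hm : w.count true + 1 ≤ m := by omega
  set v := w ++ List.replicate m false with hv
  have hct : v.count true = w.count true := by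
    rw [hv, List.count_append, List.count_replicate]; simp
  have hcf : w.count true + 1 ≤ v.count false := by
    rw [hv, List.count_append, List.count_replicate]
    simp only [BEq.rfl, if_true]
    omega
  have h1 := strict_odd v (v.count true) (strict_of_few_ones v (by rw [hct]; exact hcf))
  have h2 := (dd_word (true :: v) 0).1 0
  have hval : val (true :: v) = 2 * val w + 1 := by
    simp only [val]
    rw [hv, val_append]
  have hlen : (true :: v).length + 0 = w.length + 1 + m := by
    rw [hv]; simp; ring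
  rw [hval, hlen] at h2
  rw [h2, s_odd, s_val]
  rw [hct] at h1
  refine h1.trans ?_
  exact (tl_mono one0 one0 (dd 1 0) dd_one_zero (true :: v)).1 0

/-- **Lower bound for the proportions.** -/
theorem lower (t : ℕ) : ∃ M0 : ℕ, ∀ M, M0 ≤ M →
    1 / 2 + 1 / 2 * (1 / 4 : ℝ) ^ s t ≤ dd t M 0 := by
  induction t using Nat.strong_induction_on with
  | _ t ih =>
    rcases Nat.even_or_odd' t with ⟨c, hc | hc⟩
    · rcases Nat.eq_zero_or_pos c with h0 | hpos
      · refine ⟨0, fun M _ => ?_⟩
        rw [hc, h0, mul_zero, dd_zero, s_zero]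
        norm_num [one0]
      · obtain ⟨M0, hM0⟩ := ih c (by omega)
        refine ⟨M0 + 1, fun M hM => ?_⟩
        obtain ⟨m, rfl⟩ := Nat.exists_eq_add_of_le' (show 1 ≤ M by omega)
        rw [hc, dd_even, s_even]
        exact hM0 m (by omega)
    · obtain ⟨w, hw⟩ := exists_word c
      have := lower_odd w
      rw [hw, ← hc] at this
      exact this

end Pool.Agent.Y471.CK
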